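import Pool.Agent.Helper30.TQ.St

/-!
# Project TQ, module SQR: `(1, c, 0)` is not a square
-/

set_option autoImplicit false

namespace Pool.Agent.Helper2.TQ

open Pool.Agent.Helper30.TQ

/-- Module SQR. -/
theorem hSQR : StSQR := by
  intro c hc u h
  obtain ⟨p, q, r⟩ := u
  simp only [mu, Prod.mk.injEq] at h
  obtain ⟨e1, e2, e3⟩ := h
  have k1 : p ^ 2 = 1 + 8 * (q * r) := by linear_combination e1
  have k2 : -(2 * (q * ((2 * c * r - p) + 2 * c * r))) = c + 4 * r ^ 2 := by
    linear_combination e2
  have k3 : q ^ 2 = 2 * (r * (2 * c * r - p)) := by linear_combination e3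
  have hp : 0 ≤ p ^ 2 := sq_nonneg p
  have hq : 0 ≤ q ^ 2 := sq_nonneg q
  have hr : 0 ≤ r ^ 2 := sq_nonneg r
  have hmain : q * r ≤ -1 → False := by
    intro h
    omega
  rcases lt_trichotomy r 0 with h0 | h0 | h0
  · have he : 2 * c * r - p ≤ 0 := by
      by_contra hcon
      push Not at hcon
      have := mul_neg_of_neg_of_pos h0 hcon
      omega
    have hcr : c * r ≤ r := by nlinarith
    rcases le_or_gt q 0 with h1 | h1
    · have h2 : (2 * c * r - p) + 2 * c * r ≤ 0 := by nlinarith
      have h3 := mul_nonneg_of_nonpos_of_nonpos h1 h2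
      omega
    · apply hmain
      nlinarith
  · subst h0
    have h4 : q = 0 := by
      have : q ^ 2 = 0 := by rw [k3]; ring
      exact pow_eq_zero_iff (two_ne_zero) |>.1 this
    subst h4
    have : c = 0 := by linear_combination -k2
    omega
  · have he : 0 ≤ 2 * c * r - p := by
      by_contra hcon
      push Not at hcon
      have := mul_neg_of_pos_of_neg h0 hcon
      omega
    have hcr : r ≤ c * r := by nlinarith
    rcases le_or_gt 0 q with h1 | h1
    · have h2 : 0 ≤ (2 * c * r - p) + 2 * c * r := by nlinarith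
      have h3 := mul_nonneg h1 h2
      omega
    · apply hmain
      nlinarith

end Pool.Agent.Helper2.TQ
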